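import Pool.Agent.H15.SJ.Stm

set_option autoImplicit false

/-!
# Crew SJ, part SPL, first half: the hull identity along the symmetric movement
-/

open MeasureTheory Set
open scoped ENNReal NNReal

namespace Pool.Agent.H15.SJ

/-- the constraints for the moving point `(1, t)` with neighbours `(h, a)`, `(h, b)` -/
def UL (h a b t : ℝ) (c : ℝ × ℝ) : Prop :=
  (1 - h) * c.2 ≤ (1 - h) * b + (t - b) * (c.1 - h) ∧
    (1 - h) * a + (t - a) * (c.1 - h) ≤ (1 - h) * c.2

/-- the cap -/
def Wc (h a b t : ℝ) : Set (ℝ × ℝ) := {x | h ≤ x.1 ∧ UL h a b t x}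

theorem UL_convex (h a b t : ℝ) : Convex ℝ {c : ℝ × ℝ | UL h a b t c} := by
  intro x hx y hy α β hα hβ hαβ
  obtain ⟨h1, h2⟩ := hx
  obtain ⟨h3, h4⟩ := hy
  have hβ' : β = 1 - α := by linarith
  subst hβ'
  refine ⟨?_, ?_⟩
  · simp only [Prod.fst_add, Prod.snd_add, Prod.smul_fst, Prod.smul_snd, smul_eq_mul]
    nlinarith [mul_le_mul_of_nonneg_left h1 hα, mul_le_mul_of_nonneg_left h3 hβ]
  · simp only [Prod.fst_add, Prod.snd_add, Prod.smul_fst, Prod.smul_snd, smul_eq_mul]
    nlinarith [mul_le_mul_of_nonneg_left h2 hα, mul_le_mul_of_nonneg_left h4 hβ]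

/-- points of the vertical segment between the two neighbours -/
theorem mem_seg {S : Set (ℝ × ℝ)} {h a b : ℝ} (hab : a < b) (hA : (h, a) ∈ S) (hB : (h, b) ∈ S)
    {y : ℝ} (h1 : a ≤ y) (h2 : y ≤ b) : ((h, y) : ℝ × ℝ) ∈ convexHull ℝ S := by
  have hc : Convex ℝ (convexHull ℝ S) := convex_convexHull ℝ S
  have h3 := hc (subset_convexHull ℝ S hA) (subset_convexHull ℝ S hB)
    (show 0 ≤ (b - y) / (b - a) from div_nonneg (by linarith) (by linarith))
    (show 0 ≤ (y - a) / (b - a) from div_nonneg (by linarith) (by linarith))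
    (by
      have : b - a ≠ 0 := by linarith
      field_simp; ring)
  have hne : b - a ≠ 0 := by linarith
  have e : ((b - y) / (b - a)) • ((h, a) : ℝ × ℝ) + ((y - a) / (b - a)) • ((h, b) : ℝ × ℝ) =
      (h, y) := by
    ext
    · simp only [Prod.fst_add, Prod.smul_fst, smul_eq_mul]
      field_simp
      ring
    · simp only [Prod.snd_add, Prod.smul_snd, smul_eq_mul]
      field_simp
      ring
  rwa [e] at h3

/-- the cap lemma -/
theorem cap {S : Set (ℝ × ℝ)} {h a b t : ℝ} (hh : h < 1) (hab : a < b) (hA : (h, a) ∈ S)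
    (hB : (h, b) ∈ S) (hS : ∀ c ∈ S, c.1 ≤ h ∧ UL h a b t c) :
    convexHull ℝ (insert ((1, t) : ℝ × ℝ) S) = convexHull ℝ S ∪ Wc h a b t := by
  have hQ : ∀ c ∈ convexHull ℝ S, c.1 ≤ h ∧ UL h a b t c := by
    intro c hc
    refine ⟨?_, convexHull_min (fun c hc => (hS c hc).2) (UL_convex h a b t) hc⟩
    have hcv : Convex ℝ {c : ℝ × ℝ | c.1 ≤ h} := by
      intro x hx y hy α β hα hβ hαβ
      have hx' : x.1 ≤ h := hx
      have hy' : y.1 ≤ h := hy
      show (α • x + β • y).1 ≤ h
      simp only [Prod.fst_add, Prod.smul_fst, smul_eq_mul]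
      nlinarith [mul_le_mul_of_nonneg_left hx' hα, mul_le_mul_of_nonneg_left hy' hβ]
    exact convexHull_min (fun c hc => (hS c hc).1) hcv hc
  have hv : UL h a b t ((1, t) : ℝ × ℝ) := by
    constructor
    · show (1 - h) * t ≤ (1 - h) * b + (t - b) * (1 - h)
      linarith
    · show (1 - h) * a + (t - a) * (1 - h) ≤ (1 - h) * t
      linarith
  have hSne : S.Nonempty := ⟨_, hA⟩
  have hQc : Convex ℝ (convexHull ℝ S) := convex_convexHull ℝ S
  apply Subset.antisymm
  · intro x hx
    have hxUL : UL h a b t x := by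
      have : convexHull ℝ (insert ((1, t) : ℝ × ℝ) S) ⊆ {c : ℝ × ℝ | UL h a b t c} := by
        apply convexHull_min _ (UL_convex h a b t)
        rintro c (rfl | hc)
        · exact hv
        · exact (hS c hc).2
      exact this hx
    by_cases hx1 : h ≤ x.1
    · exact Or.inr ⟨hx1, hxUL⟩
    left
    push Not at hx1
    rw [convexHull_insert hSne, mem_convexJoin] at hx
    obtain ⟨v, hv', q, hq, hxs⟩ := hx
    rw [mem_singleton_iff] at hv'
    subst hv'
    obtain ⟨α, β, hα, hβ, hαβ, hxe⟩ := hxs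
    have hq1 := (hQ q hq).1
    -- the crossing point with the line `x.1 = h`
    rcases hα.eq_or_lt with hα0 | hα0
    · have hβ1 : β = 1 := by linarith
      rw [← hxe, ← hα0, hβ1]
      simpa using hq
    · have hx1e : x.1 = α + β * q.1 := by
        rw [← hxe]
        simp
      have hq1' : q.1 < h := by
        by_contra hcon
        push Not at hcon
        have : q.1 = h := le_antisymm hq1 hcon
        rw [this] at hx1e
        nlinarith
      have hd : 0 < 1 - q.1 := by linarith
      -- crossing point `z = λ v + (1 - λ) q`, `λ = (h - q.1) / (1 - q.1)`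
      set l := (h - q.1) / (1 - q.1) with hl
      have hl0 : 0 < l := div_pos (by linarith) hd
      have hl1 : l < 1 := by rw [hl, div_lt_one hd]; linarith
      have hle : l * (1 - q.1) = h - q.1 := by rw [hl]; field_simp
      set z2 := l * t + (1 - l) * q.2 with hz2
      have hz1 : l * 1 + (1 - l) * q.1 = h := by linarith
      have hzUL : UL h a b t ((h, z2) : ℝ × ℝ) := by
        have := UL_convex h a b t hv (hQ q hq).2 hl0.le (by linarith : (0 : ℝ) ≤ 1 - l) (by ring)
        have e : l • ((1, t) : ℝ × ℝ) + (1 - l) • q = (h, z2) := by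
          ext
          · simp only [Prod.fst_add, Prod.smul_fst, smul_eq_mul]
            exact hz1
          · simp only [Prod.snd_add, Prod.smul_snd, smul_eq_mul]
            rfl
        rw [e] at this
        exact this
      obtain ⟨u1, u2⟩ := hzUL
      simp only [sub_self, mul_zero, add_zero] at u1 u2
      have hh' : 0 < 1 - h := by linarith
      have hz2b : z2 ≤ b := le_of_mul_le_mul_left u1 hh'
      have hz2a : a ≤ z2 := le_of_mul_le_mul_left u2 hh'
      have hzQ := mem_seg hab hA hB hz2a hz2b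
      -- `x = (α / l) z + (1 - α / l) q`
      have hαl : α ≤ l := by
        have : α * (1 - q.1) ≤ l * (1 - q.1) := by
          rw [hle]
          have : β = 1 - α := by linarith
          rw [this] at hx1e
          nlinarith
        exact le_of_mul_le_mul_right this hd
      have h5 := hQc hzQ hq (show 0 ≤ α / l from (div_pos hα0 hl0).le)
        (show 0 ≤ 1 - α / l from sub_nonneg.2 ((div_le_one hl0).2 hαl)) (by ring)
      have e : (α / l) • ((h, z2) : ℝ × ℝ) + (1 - α / l) • q = x := by
        rw [← hxe]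
        have hβ' : β = 1 - α := by linarith
        ext
        · simp only [Prod.fst_add, Prod.smul_fst, smul_eq_mul]
          rw [← hz1, hβ']
          field_simp
          ring
        · simp only [Prod.snd_add, Prod.smul_snd, smul_eq_mul]
          rw [hz2, hβ']
          field_simp
          ring
      rwa [e] at h5
  · apply union_subset
    · exact convexHull_mono (subset_insert _ _)
    · rintro x ⟨hx1, hu, hl⟩
      have hh' : 0 < 1 - h := by linarith
      have hx1' : x.1 ≤ 1 := by
        by_contra hcon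
        push Not at hcon
        nlinarith [mul_pos (sub_pos.2 hab) (sub_pos.2 hcon)]
      -- `x = m v + (1 - m) (h, y)`, `m = (x.1 - h) / (1 - h)`
      rcases hx1'.eq_or_lt with he | hlt
      · have : x.2 = t := by
          rw [he] at hu hl
          have e1 : (1 - h) * x.2 ≤ (1 - h) * t := by linarith
          have e2 : (1 - h) * t ≤ (1 - h) * x.2 := by linarith
          exact le_antisymm (le_of_mul_le_mul_left e1 hh') (le_of_mul_le_mul_left e2 hh')
        have : x = (1, t) := Prod.ext he this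
        rw [this]
        exact subset_convexHull ℝ _ (mem_insert _ _)
      · set m := (x.1 - h) / (1 - h) with hm
        have hm0 : 0 ≤ m := div_nonneg (by linarith) hh'.le
        have hm1 : m < 1 := by rw [hm, div_lt_one hh']; linarith
        have hme : m * (1 - h) = x.1 - h := by rw [hm]; field_simp
        set y := (x.2 - m * t) / (1 - m) with hy
        have hye : (1 - m) * y = x.2 - m * t := by
          rw [hy]
          have : 1 - m ≠ 0 := by linarith
          field_simp
        have hm' : 0 < 1 - m := by linarith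
        have hyb : y ≤ b := by
          apply le_of_mul_le_mul_left _ hm'
          apply le_of_mul_le_mul_left _ hh'
          rw [hye]
          rw [← hme] at hu
          linarith
        have hya : a ≤ y := by
          apply le_of_mul_le_mul_left _ hm'
          apply le_of_mul_le_mul_left _ hh'
          rw [hye]
          rw [← hme] at hl
          linarith
        have h3 := mem_seg hab (mem_insert_of_mem ((1, t) : ℝ × ℝ) hA)
          (mem_insert_of_mem ((1, t) : ℝ × ℝ) hB) hya hyb
        have h4 := (convex_convexHull ℝ (insert ((1, t) : ℝ × ℝ) S))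
          (subset_convexHull ℝ _ (mem_insert _ _)) h3 hm0 hm'.le (by ring)
        have e : m • ((1, t) : ℝ × ℝ) + (1 - m) • ((h, y) : ℝ × ℝ) = x := by
          ext
          · simp only [Prod.fst_add, Prod.smul_fst, smul_eq_mul]
            linarith
          · simp only [Prod.snd_add, Prod.smul_snd, smul_eq_mul]
            linarith
        rwa [e] at h4

/-- hull of a symmetric set is symmetric -/
theorem hull_neg {S : Set (ℝ × ℝ)} (hS : ∀ x ∈ S, -x ∈ S) :
    ∀ x ∈ convexHull ℝ S, -x ∈ convexHull ℝ S := by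
  intro x hx
  have h1 : (fun x : ℝ × ℝ => -x) '' convexHull ℝ S = convexHull ℝ ((fun x => -x) '' S) :=
    (LinearMap.image_convexHull (-LinearMap.id : (ℝ × ℝ) →ₗ[ℝ] (ℝ × ℝ)) S)
  have h2 : (fun x : ℝ × ℝ => -x) '' S = S := by
    ext y
    constructor
    · rintro ⟨z, hz, rfl⟩; exact hS z hz
    · intro hy; exact ⟨-y, hS y hy, neg_neg y⟩
  rw [h2] at h1
  rw [← h1]
  exact ⟨x, hx, rfl⟩

/-- the hull with both moving points -/
theorem hull_pm {S : Set (ℝ × ℝ)} {h a b t : ℝ} (hh0 : 0 ≤ h) (hh : h < 1) (hab : a < b)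
    (hA : (h, a) ∈ S) (hB : (h, b) ∈ S) (hsym : ∀ x ∈ S, -x ∈ S)
    (hS : ∀ c ∈ S, c.1 ≤ h ∧ UL h a b t c) :
    convexHull ℝ (insert ((1, t) : ℝ × ℝ) (insert (-((1, t) : ℝ × ℝ)) S)) =
      convexHull ℝ S ∪ Wc h a b t ∪ (fun x => -x) '' Wc h a b t := by
  have hcap := cap hh hab hA hB hS
  -- the constraints for `-v`
  have hnB := (hS _ (hsym _ hB)).2
  have hnA := (hS _ (hsym _ hA)).2
  have e1 : h * t ≤ b := by
    have := hnB.1
    simp only [Prod.snd_neg, Prod.fst_neg] at this
    nlinarith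
  have e2 : a ≤ h * t := by
    have := hnA.2
    simp only [Prod.snd_neg, Prod.fst_neg] at this
    nlinarith
  have hS' : ∀ c ∈ insert (-((1, t) : ℝ × ℝ)) S, c.1 ≤ h ∧ UL h a b t c := by
    rintro c (rfl | hc)
    · refine ⟨?_, ?_, ?_⟩
      · simp only [Prod.fst_neg]; linarith
      · simp only [Prod.snd_neg, Prod.fst_neg]; nlinarith
      · simp only [Prod.snd_neg, Prod.fst_neg]; nlinarith
    · exact hS c hc
  rw [cap hh hab (mem_insert_of_mem _ hA) (mem_insert_of_mem _ hB) hS']
  have h3 : convexHull ℝ (insert (-((1, t) : ℝ × ℝ)) S) =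
      (fun x => -x) '' convexHull ℝ (insert ((1, t) : ℝ × ℝ) S) := by
    have h1 : (fun x : ℝ × ℝ => -x) '' convexHull ℝ (insert ((1, t) : ℝ × ℝ) S) =
        convexHull ℝ ((fun x => -x) '' (insert ((1, t) : ℝ × ℝ) S)) :=
      (LinearMap.image_convexHull (-LinearMap.id : (ℝ × ℝ) →ₗ[ℝ] (ℝ × ℝ)) _)
    rw [h1, image_insert_eq]
    congr 2
    ext y
    constructor
    · intro hy; exact ⟨-y, hsym y hy, neg_neg y⟩
    · rintro ⟨z, hz, rfl⟩; exact hsym z hz
  have h4 : (fun x : ℝ × ℝ => -x) '' convexHull ℝ S = convexHull ℝ S := by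
    ext y
    constructor
    · rintro ⟨z, hz, rfl⟩; exact hull_neg hsym z hz
    · intro hy; exact ⟨-y, hull_neg hsym y hy, neg_neg y⟩
  rw [h3, hcap, image_union, h4, union_assoc, union_assoc, union_comm ((fun x => -x) '' _)]

theorem sh_fix {h τ : ℝ} {x : ℝ × ℝ} (h1 : x.1 ≤ h) (h2 : -h ≤ x.1) : sh h τ x = x := by
  unfold sh
  rw [max_eq_right (by linarith), max_eq_right (by linarith)]
  ext
  · rfl
  · simp

theorem sh_cap {h τ : ℝ} {x : ℝ × ℝ} (h0 : 0 ≤ h) (h1 : h ≤ x.1) :
    sh h τ x = (x.1, x.2 + τ * (x.1 - h)) := by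
  unfold sh
  rw [max_eq_left (by linarith), max_eq_right (by linarith), sub_zero]

theorem sh_neg' (h t : ℝ) (x : ℝ × ℝ) : sh h t (-x) = -sh h t x := by
  unfold sh
  ext
  · simp
  · simp only [Prod.snd_neg, Prod.fst_neg, neg_neg]
    ring

/-- the movement of the hull -/
theorem hull_move {S : Set (ℝ × ℝ)} {h a b t : ℝ} (hh0 : 0 ≤ h) (hh : h < 1) (hab : a < b)
    (hA : (h, a) ∈ S) (hB : (h, b) ∈ S) (hsym : ∀ x ∈ S, -x ∈ S)
    (hS0 : ∀ c ∈ S, c.1 ≤ h ∧ UL h a b 0 c) (hS : ∀ c ∈ S, c.1 ≤ h ∧ UL h a b t c) :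
    convexHull ℝ (insert ((1, t) : ℝ × ℝ) (insert (-((1, t) : ℝ × ℝ)) S)) =
      sh h (t / (1 - h)) ''
        convexHull ℝ (insert ((1, 0) : ℝ × ℝ) (insert (-((1, 0) : ℝ × ℝ)) S)) := by
  rw [hull_pm hh0 hh hab hA hB hsym hS, hull_pm hh0 hh hab hA hB hsym hS0, image_union, image_union]
  have hh' : 0 < 1 - h := by linarith
  have hτ : (1 - h) * (t / (1 - h)) = t := by field_simp
  set τ := t / (1 - h) with hτd
  have hQ1 : ∀ c ∈ convexHull ℝ S, c.1 ≤ h := by
    intro c hc
    have hcv : Convex ℝ {c : ℝ × ℝ | c.1 ≤ h} := by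
      intro x hx y hy α β hα hβ hαβ
      have hx' : x.1 ≤ h := hx
      have hy' : y.1 ≤ h := hy
      show (α • x + β • y).1 ≤ h
      simp only [Prod.fst_add, Prod.smul_fst, smul_eq_mul]
      nlinarith [mul_le_mul_of_nonneg_left hx' hα, mul_le_mul_of_nonneg_left hy' hβ]
    exact convexHull_min (fun c hc => (hS0 c hc).1) hcv hc
  have hQ : sh h τ '' convexHull ℝ S = convexHull ℝ S := by
    have hfix : ∀ c ∈ convexHull ℝ S, sh h τ c = c := by
      intro c hc
      apply sh_fix (hQ1 c hc)
      have := hQ1 (-c) (hull_neg hsym c hc)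
      simp only [Prod.fst_neg] at this
      linarith
    ext y
    constructor
    · rintro ⟨z, hz, rfl⟩; rw [hfix z hz]; exact hz
    · intro hy; exact ⟨y, hy, hfix y hy⟩
  have hW : sh h τ '' Wc h a b 0 = Wc h a b t := by
    ext y
    constructor
    · rintro ⟨z, ⟨hz1, hz2, hz3⟩, rfl⟩
      rw [sh_cap hh0 hz1]
      refine ⟨hz1, ?_, ?_⟩
      · show (1 - h) * (z.2 + τ * (z.1 - h)) ≤ (1 - h) * b + (t - b) * (z.1 - h)
        have : (1 - h) * (z.2 + τ * (z.1 - h)) = (1 - h) * z.2 + t * (z.1 - h) := by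
          rw [← hτ]; ring
        rw [this]; linarith
      · show (1 - h) * a + (t - a) * (z.1 - h) ≤ (1 - h) * (z.2 + τ * (z.1 - h))
        have : (1 - h) * (z.2 + τ * (z.1 - h)) = (1 - h) * z.2 + t * (z.1 - h) := by
          rw [← hτ]; ring
        rw [this]; linarith
    · rintro ⟨hy1, hy2, hy3⟩
      refine ⟨(y.1, y.2 - τ * (y.1 - h)), ⟨hy1, ?_, ?_⟩, ?_⟩
      · show (1 - h) * (y.2 - τ * (y.1 - h)) ≤ (1 - h) * b + (0 - b) * (y.1 - h)
        have : (1 - h) * (y.2 - τ * (y.1 - h)) = (1 - h) * y.2 - t * (y.1 - h) := by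
          rw [← hτ]; ring
        rw [this]; linarith
      · show (1 - h) * a + (0 - a) * (y.1 - h) ≤ (1 - h) * (y.2 - τ * (y.1 - h))
        have : (1 - h) * (y.2 - τ * (y.1 - h)) = (1 - h) * y.2 - t * (y.1 - h) := by
          rw [← hτ]; ring
        rw [this]; linarith
      · rw [sh_cap hh0 (by exact hy1)]
        ext
        · rfl
        · simp
  have hW' : sh h τ '' ((fun x => -x) '' Wc h a b 0) = (fun x => -x) '' Wc h a b t := by
    rw [← hW, image_image, image_image]
    apply image_congr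
    intro x _
    exact sh_neg' h τ x
  rw [hQ, hW, hW']

end Pool.Agent.H15.SJ
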